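import Mathlib

/-! Sums of two squares have density zero (elementary proof). -/

namespace Pool.Agent.H336Z.TwoSq

open Finset Filter

lemma exists_prime_three (n : ℕ) (hn : n % 4 = 3) : ∃ p, p.Prime ∧ p ∣ n ∧ p % 4 = 3 := by
  induction n using Nat.recOnMul with
  | zero => simp at hn
  | one => simp at hn
  | prime p hp => exact ⟨p, hp, dvd_rfl, hn⟩
  | mul a b iha ihb =>
    by_cases ha : a % 4 = 3
    · obtain ⟨p, hp, hpa, h⟩ := iha ha
      exact ⟨p, hp, hpa.mul_right _, h⟩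
    by_cases hb : b % 4 = 3
    · obtain ⟨p, hp, hpb, h⟩ := ihb hb
      exact ⟨p, hp, hpb.mul_left _, h⟩
    exfalso
    have h1 : a % 4 < 4 := Nat.mod_lt _ (by norm_num)
    have h2 : b % 4 < 4 := Nat.mod_lt _ (by norm_num)
    rw [Nat.mul_mod] at hn
    generalize a % 4 = x at *
    generalize b % 4 = y at *
    interval_cases x <;> interval_cases y <;> simp_all

lemma card_dvd_le (Q N p : ℕ) (hp : p.Prime) (hQ : 0 < Q) :
    (((range N).filter (fun t => p ∣ Q * (t + 1) - 1)).card : ℝ) ≤ (N : ℝ) / p + 1 := by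
  have h1 : ((range N).filter (fun t => p ∣ Q * (t + 1) - 1)).card ≤ (range (N / p + 1)).card := by
    apply Finset.card_le_card_of_injOn (fun t => t / p)
    · intro t ht
      simp only [coe_filter, mem_range, Set.mem_ofPred_eq] at ht
      simp only [coe_range, Set.mem_Iio]
      have : t / p ≤ N / p := Nat.div_le_div_right ht.1.le
      omega
    · intro t ht s hs hts
      simp only [coe_filter, mem_range, Set.mem_ofPred_eq] at ht hs
      simp only at hts
      have hpos : ∀ u : ℕ, 1 ≤ Q * (u + 1) := fun u => Nat.mul_pos hQ (Nat.succ_pos u)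
      have ht2 : (p : ℤ) ∣ (Q : ℤ) * (t + 1) - 1 := by
        have := Int.natCast_dvd_natCast.2 ht.2
        rw [Nat.cast_sub (hpos t)] at this
        simpa using this
      have hs2 : (p : ℤ) ∣ (Q : ℤ) * (s + 1) - 1 := by
        have := Int.natCast_dvd_natCast.2 hs.2
        rw [Nat.cast_sub (hpos s)] at this
        simpa using this
      have hpz : Prime (p : ℤ) := Nat.prime_iff_prime_int.1 hp
      have hd : (p : ℤ) ∣ (Q : ℤ) * ((t : ℤ) - s) := by
        have := dvd_sub ht2 hs2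
        have e : (Q : ℤ) * ((t : ℤ) - s) = (Q : ℤ) * (t + 1) - 1 - ((Q : ℤ) * (s + 1) - 1) := by ring
        rw [e]; exact this
      rcases hpz.dvd_or_dvd hd with h | h
      · exfalso
        have h3 : (p : ℤ) ∣ 1 := by
          have := dvd_sub (h.mul_right ((t : ℤ) + 1)) ht2
          simpa using this
        exact hpz.not_dvd_one h3
      · have hmod : t % p = s % p := by
          have : s ≡ t [MOD p] := (Nat.modEq_iff_dvd).2 h
          exact this.symm
        rw [← Nat.div_add_mod t p, ← Nat.div_add_mod s p, hts, hmod]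
  have h2 : ((N / p : ℕ) : ℝ) ≤ (N : ℝ) / p := Nat.cast_div_le
  rw [card_range] at h1
  have : (((range N).filter (fun t => p ∣ Q * (t + 1) - 1)).card : ℝ) ≤ ((N / p + 1 : ℕ) : ℝ) := by
    exact_mod_cast h1
  push_cast at this
  linarith

lemma exists_block (K : ℕ) : ∃ P : Finset ℕ, (∀ p ∈ P, p.Prime ∧ p % 4 = 3 ∧ K < p) ∧
    (1 : ℝ) / 2 ≤ ∑ p ∈ P, (1 : ℝ) / p := by
  set Q := 4 * K.factorial with hQdef
  have hQ : 0 < Q := by positivity
  have hQr : (0 : ℝ) < Q := by exact_mod_cast hQ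
  have hev := Chebyshev.eventually_primeCounting_le (ε := 1) one_pos
  have ht : Tendsto (fun N : ℕ => (Q : ℝ) * N) atTop atTop :=
    Tendsto.const_mul_atTop hQr tendsto_natCast_atTop_atTop
  have hlog : ∀ᶠ N : ℕ in atTop, 2 * (Real.log 4 + 1) * Q ≤ Real.log ((Q : ℝ) * N) :=
    (Real.tendsto_log_atTop.comp ht).eventually_ge_atTop _
  obtain ⟨N, hN1, hN2, hN3⟩ := ((ht.eventually hev).and (hlog.and (eventually_ge_atTop 1))).exists
  have hNr : (0 : ℝ) < N := by exact_mod_cast hN3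
  have hl4 : 0 < Real.log 4 + 1 := by have := Real.log_pos (show (1 : ℝ) < 4 by norm_num); linarith
  have hfl : ⌊(Q : ℝ) * N⌋₊ = Q * N := by
    rw [← Nat.cast_mul, Nat.floor_natCast]
  rw [hfl] at hN1
  have hpi : (Nat.primeCounting (Q * N) : ℝ) ≤ N / 2 := by
    refine hN1.trans ?_
    have hlpos : 0 < Real.log ((Q : ℝ) * N) := lt_of_lt_of_le (by positivity) hN2
    rw [div_le_iff₀ hlpos]
    have := mul_le_mul_of_nonneg_left hN2 (show (0 : ℝ) ≤ N / 2 by positivity)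
    calc (Real.log 4 + 1) * ((Q : ℝ) * N) = N / 2 * (2 * (Real.log 4 + 1) * Q) := by ring
      _ ≤ _ := this
  set P := (range (Q * N + 1)).filter (fun p => p.Prime ∧ p % 4 = 3 ∧ K < p) with hP
  refine ⟨P, fun p hp => (mem_filter.1 hp).2, ?_⟩
  have hcardP : (P.card : ℝ) ≤ Nat.primeCounting (Q * N) := by
    have : P.card ≤ Nat.primeCounting (Q * N) := by
      rw [Nat.primeCounting, Nat.primeCounting', Nat.count_eq_card_filter_range]
      apply card_le_card
      intro p hp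
      rw [hP, mem_filter] at hp
      exact mem_filter.2 ⟨hp.1, hp.2.1⟩
    exact_mod_cast this
  have hcover : range N ⊆ P.biUnion (fun p => (range N).filter (fun t => p ∣ Q * (t + 1) - 1)) := by
    intro t ht
    have hpos : 1 ≤ Q * (t + 1) := Nat.mul_pos hQ (Nat.succ_pos t)
    have h3 : (Q * (t + 1) - 1) % 4 = 3 := by
      have : Q * (t + 1) = 4 * (K.factorial * (t + 1)) := by rw [hQdef]; ring
      omega
    obtain ⟨p, hp, hpd, hp3⟩ := exists_prime_three _ h3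
    rw [mem_biUnion]
    refine ⟨p, ?_, mem_filter.2 ⟨ht, hpd⟩⟩
    rw [hP, mem_filter, mem_range]
    have htN : t + 1 ≤ N := by simpa using mem_range.1 ht
    have hle : p ≤ Q * (t + 1) - 1 := Nat.le_of_dvd (by omega) hpd
    have hle2 : Q * (t + 1) ≤ Q * N := Nat.mul_le_mul_left _ htN
    refine ⟨by omega, hp, hp3, ?_⟩
    by_contra hK
    push Not at hK
    have h4 : p ∣ Q * (t + 1) := by
      rw [hQdef]
      exact ((Nat.dvd_factorial hp.pos hK).mul_left 4).mul_right _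
    have h5 : p ∣ Q * (t + 1) - (Q * (t + 1) - 1) := Nat.dvd_sub h4 hpd
    have h6 : Q * (t + 1) - (Q * (t + 1) - 1) = 1 := by omega
    rw [h6] at h5
    exact hp.one_lt.ne' (Nat.dvd_one.1 h5)
  have hN4 : (N : ℝ) ≤ ∑ p ∈ P, ((N : ℝ) / p + 1) := by
    have h1 := (card_le_card hcover).trans card_biUnion_le
    rw [card_range] at h1
    have h2 : (N : ℝ) ≤ ∑ p ∈ P,
        (((range N).filter (fun t => p ∣ Q * (t + 1) - 1)).card : ℝ) := by exact_mod_cast h1
    refine h2.trans (sum_le_sum fun p hp => card_dvd_le Q N p (mem_filter.1 hp).2.1 hQ)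
  rw [sum_add_distrib] at hN4
  simp only [sum_const, nsmul_eq_mul, mul_one] at hN4
  have h7 : ∑ p ∈ P, (N : ℝ) / p = N * ∑ p ∈ P, (1 : ℝ) / p := by
    rw [mul_sum]; apply sum_congr rfl; intro p _; ring
  rw [h7] at hN4
  have : (N : ℝ) * (1 / 2) ≤ N * ∑ p ∈ P, (1 : ℝ) / p := by linarith
  exact le_of_mul_le_mul_left this hNr

lemma exists_big (L : ℕ) : ∃ P : Finset ℕ, (∀ p ∈ P, p.Prime ∧ p % 4 = 3) ∧
    (L : ℝ) / 2 ≤ ∑ p ∈ P, (1 : ℝ) / p := by
  induction L with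
  | zero => exact ⟨∅, by simp, by simp⟩
  | succ L ih =>
    obtain ⟨P, hP, hs⟩ := ih
    obtain ⟨R, hR, hs2⟩ := exists_block (P.sup id)
    have hdisj : Disjoint P R := by
      rw [Finset.disjoint_left]
      intro p hp hpR
      have h1 := (hR p hpR).2.2
      have h2 : p ≤ P.sup id := Finset.le_sup (f := id) hp
      omega
    refine ⟨P ∪ R, ?_, ?_⟩
    · intro p hp
      rcases mem_union.1 hp with h | h
      · exact hP p h
      · exact ⟨(hR p h).1, (hR p h).2.1⟩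
    · rw [sum_union hdisj]; push_cast; linarith

/-- `n` is not exactly divisible by any prime of `P`. -/
def Good (P : Finset ℕ) (n : ℕ) : Prop := ∀ p ∈ P, p ∣ n → p ^ 2 ∣ n

instance (P : Finset ℕ) : DecidablePred (Good P) := fun n => by unfold Good; infer_instance

def cnt (P : Finset ℕ) (X : ℕ) : ℕ := ((Ioc 0 X).filter (Good P)).card

lemma good_mul {P : Finset ℕ} (hP : ∀ p ∈ P, p.Prime) {m : ℕ} (hm : ∀ p ∈ P, Nat.Coprime p m)
    (n : ℕ) : Good P (m * n) ↔ Good P n := by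
  unfold Good
  refine forall₂_congr fun p hp => ?_
  have h1 := hm p hp
  rw [h1.dvd_mul_left, (Nat.Coprime.pow_left 2 h1).dvd_mul_left]

lemma cnt_dvd {P : Finset ℕ} (hP : ∀ p ∈ P, p.Prime) {m : ℕ} (hm0 : 0 < m)
    (hm : ∀ p ∈ P, Nat.Coprime p m) (X : ℕ) :
    ((Ioc 0 X).filter (fun n => Good P n ∧ m ∣ n)).card = cnt P (X / m) := by
  unfold cnt
  symm
  apply Finset.card_bij (fun k _ => m * k)
  · intro k hk
    rw [mem_filter, mem_Ioc] at hk ⊢
    refine ⟨⟨Nat.mul_pos hm0 hk.1.1, ?_⟩, (good_mul hP hm k).2 hk.2, dvd_mul_right _ _⟩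
    have := (Nat.le_div_iff_mul_le hm0).1 hk.1.2
    linarith [mul_comm m k]
  · intro a _ b _ h
    exact Nat.eq_of_mul_eq_mul_left hm0 h
  · intro n hn
    rw [mem_filter, mem_Ioc] at hn
    obtain ⟨⟨h0, hX⟩, hg, k, rfl⟩ := hn
    refine ⟨k, ?_, rfl⟩
    rw [mem_filter, mem_Ioc]
    refine ⟨⟨Nat.pos_of_mul_pos_left h0, ?_⟩, (good_mul hP hm k).1 hg⟩
    rw [Nat.le_div_iff_mul_le hm0]
    linarith [mul_comm m k]

lemma cnt_insert {P : Finset ℕ} (hP : ∀ p ∈ P, p.Prime) {q : ℕ} (hq : q.Prime) (hqP : q ∉ P)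
    (X : ℕ) : cnt (insert q P) X + cnt P (X / q) = cnt P X + cnt P (X / q ^ 2) := by
  have hcop : ∀ p ∈ P, Nat.Coprime p q := fun p hp =>
    (Nat.coprime_primes (hP p hp) hq).2 (fun h => hqP (h ▸ hp))
  rw [← cnt_dvd hP hq.pos hcop X,
    ← cnt_dvd hP (pow_pos hq.pos 2) (fun p hp => (hcop p hp).pow_right 2) X]
  unfold cnt
  simp only [card_filter]
  rw [← sum_add_distrib, ← sum_add_distrib]
  apply sum_congr rfl
  intro n _
  have h1 : Good (insert q P) n ↔ (q ∣ n → q ^ 2 ∣ n) ∧ Good P n := by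
    unfold Good; simp
  have h2 : q ^ 2 ∣ n → q ∣ n := fun h => (dvd_pow_self q two_ne_zero).trans h
  simp only [h1]
  by_cases a : Good P n <;> by_cases b : q ∣ n <;> by_cases c : q ^ 2 ∣ n <;> simp_all

noncomputable def dens (P : Finset ℕ) : ℝ := ∏ p ∈ P, (1 - 1 / (p : ℝ) + 1 / (p : ℝ) ^ 2)

lemma fac_bounds {p : ℕ} (hp : 2 ≤ p) :
    0 ≤ (1 - 1 / (p : ℝ) + 1 / (p : ℝ) ^ 2) ∧ (1 - 1 / (p : ℝ) + 1 / (p : ℝ) ^ 2) ≤
      Real.exp (-(1 / 2 * (1 / (p : ℝ)))) := by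
  have hp2 : (2 : ℝ) ≤ p := by exact_mod_cast hp
  have h1 : 1 / (p : ℝ) ≤ 1 / 2 := one_div_le_one_div_of_le (by norm_num) hp2
  have h0 : 0 < 1 / (p : ℝ) := by positivity
  have h2 : 1 / (p : ℝ) ^ 2 = (1 / (p : ℝ)) ^ 2 := by rw [one_div_pow]
  rw [h2]
  refine ⟨by nlinarith, ?_⟩
  have := Real.add_one_le_exp (-(1 / 2 * (1 / (p : ℝ))))
  nlinarith

lemma dens_bounds {P : Finset ℕ} (hP : ∀ p ∈ P, p.Prime) :
    0 ≤ dens P ∧ dens P ≤ Real.exp (-(1 / 2 * ∑ p ∈ P, 1 / (p : ℝ))) := by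
  unfold dens
  refine ⟨prod_nonneg fun p hp => (fac_bounds (hP p hp).two_le).1, ?_⟩
  rw [mul_sum, ← sum_neg_distrib, Real.exp_sum]
  exact prod_le_prod (fun p hp => (fac_bounds (hP p hp).two_le).1)
    (fun p hp => (fac_bounds (hP p hp).two_le).2)

lemma cnt_approx (P : Finset ℕ) (hP : ∀ p ∈ P, p.Prime) :
    ∃ A : ℝ, ∀ X : ℕ, |(cnt P X : ℝ) - dens P * X| ≤ A := by
  induction P using Finset.induction_on with
  | empty =>
    refine ⟨0, fun X => ?_⟩
    have : cnt ∅ X = X := by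
      unfold cnt
      rw [filter_true_of_mem (fun n _ => by unfold Good; simp)]; simp
    simp [this, dens]
  | insert q P hqP ih =>
    have hP' : ∀ p ∈ P, p.Prime := fun p hp => hP p (mem_insert_of_mem hp)
    have hq : q.Prime := hP q (mem_insert_self _ _)
    obtain ⟨A, hA⟩ := ih hP'
    obtain ⟨hd0, hd1⟩ := dens_bounds hP'
    have hd1' : dens P ≤ 1 := by
      refine hd1.trans ?_
      rw [Real.exp_le_one_iff]
      have : 0 ≤ ∑ p ∈ P, 1 / (p : ℝ) := sum_nonneg fun p _ => by positivity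
      linarith
    refine ⟨3 * A + 2, fun X => ?_⟩
    have h1 := cnt_insert hP' hq hqP X
    have h1r : (cnt (insert q P) X : ℝ) + cnt P (X / q) = cnt P X + cnt P (X / q ^ 2) := by
      exact_mod_cast h1
    have hdiv : ∀ m : ℕ, 0 < m → |((X / m : ℕ) : ℝ) - (X : ℝ) / m| ≤ 1 := by
      intro m hm
      have a1 : ((X / m : ℕ) : ℝ) ≤ (X : ℝ) / m := Nat.cast_div_le
      have hmr : (0 : ℝ) < m := by exact_mod_cast hm
      have a2 : (X : ℝ) / m < ((X / m : ℕ) : ℝ) + 1 := by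
        rw [div_lt_iff₀ hmr]
        have := Nat.lt_div_mul_add (a := X) hm
        have h3 : (X : ℝ) < ((X / m * m + m : ℕ) : ℝ) := by exact_mod_cast this
        push_cast at h3
        linarith
      rw [abs_le]; constructor <;> linarith
    have e1 := abs_le.1 (hA X)
    have e2 := abs_le.1 (hA (X / q))
    have e3 := abs_le.1 (hA (X / q ^ 2))
    have f2 := abs_le.1 (hdiv q hq.pos)
    have f3 := abs_le.1 (hdiv (q ^ 2) (pow_pos hq.pos 2))
    have hdens : dens (insert q P) = (1 - 1 / (q : ℝ) + 1 / (q : ℝ) ^ 2) * dens P := by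
      unfold dens; rw [prod_insert hqP]
    rw [hdens]
    push_cast at f3
    set u : ℝ := ((X / q : ℕ) : ℝ) - (X : ℝ) / q with hu
    set v : ℝ := ((X / q ^ 2 : ℕ) : ℝ) - (X : ℝ) / (q : ℝ) ^ 2 with hv
    have g2 : |dens P * u| ≤ 1 := by
      rw [abs_mul, abs_of_nonneg hd0]
      exact mul_le_one₀ hd1' (abs_nonneg _) (abs_le.2 f2)
    have g3 : |dens P * v| ≤ 1 := by
      rw [abs_mul, abs_of_nonneg hd0]
      exact mul_le_one₀ hd1' (abs_nonneg _) (abs_le.2 f3)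
    have key : (1 - 1 / (q : ℝ) + 1 / (q : ℝ) ^ 2) * dens P * X =
        dens P * X - (dens P * ((X / q : ℕ) : ℝ) - dens P * u)
          + (dens P * ((X / q ^ 2 : ℕ) : ℝ) - dens P * v) := by
      rw [hu, hv]; ring
    rw [key]
    have g2' := abs_le.1 g2
    have g3' := abs_le.1 g3
    rw [abs_le]; constructor <;> linarith [e1.1, e1.2, e2.1, e2.2, e3.1, e3.2]

lemma good_sq_add_sq {P : Finset ℕ} (hP : ∀ p ∈ P, p.Prime ∧ p % 4 = 3) (a b : ℕ) :
    Good P (a ^ 2 + b ^ 2) := by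
  intro p hp hd
  obtain ⟨hpp, h3⟩ := hP p hp
  have := Fact.mk hpp
  have h0 : ((a : ZMod p)) ^ 2 = -(b : ZMod p) ^ 2 := by
    have := (ZMod.natCast_eq_zero_iff (a ^ 2 + b ^ 2) p).2 hd
    push_cast at this
    linear_combination this
  have hb : (b : ZMod p) = 0 := by
    by_contra h
    exact ZMod.mod_four_ne_three_of_sq_eq_neg_sq' h h0 h3
  have ha : (a : ZMod p) = 0 := by
    rw [hb] at h0
    simpa using h0
  rw [ZMod.natCast_eq_zero_iff] at ha hb
  exact dvd_add (pow_dvd_pow_of_dvd ha 2) (pow_dvd_pow_of_dvd hb 2)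

/-- Sums of two squares have density zero. -/
theorem density_zero (ε : ℝ) (hε : 0 < ε) : ∃ A : ℝ, ∀ (X : ℕ) (S : Finset ℕ),
    (∀ n ∈ S, n ≤ X ∧ ∃ a b : ℕ, n = a ^ 2 + b ^ 2) → (S.card : ℝ) ≤ ε * X + A := by
  obtain ⟨L, hL⟩ := exists_nat_ge (4 / ε)
  obtain ⟨P, hP, hs⟩ := exists_big L
  have hP' : ∀ p ∈ P, p.Prime := fun p hp => (hP p hp).1
  obtain ⟨A, hA⟩ := cnt_approx P hP'
  have hd : dens P ≤ ε := by
    refine (dens_bounds hP').2.trans ?_
    have h1 : 1 / ε ≤ 1 / 2 * ∑ p ∈ P, 1 / (p : ℝ) := by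
      have : 4 / ε = 4 * (1 / ε) := by ring
      linarith
    have h2 : Real.exp (-(1 / 2 * ∑ p ∈ P, 1 / (p : ℝ))) ≤ Real.exp (-(1 / ε)) :=
      Real.exp_le_exp.2 (by linarith)
    refine h2.trans ?_
    rw [Real.exp_neg, inv_le_comm₀ (Real.exp_pos _) hε]
    have := Real.add_one_le_exp (1 / ε)
    rw [inv_eq_one_div]
    linarith
  refine ⟨A + 1, fun X S hS => ?_⟩
  have h1 : S ⊆ insert 0 ((Ioc 0 X).filter (Good P)) := by
    intro n hn
    obtain ⟨hX, a, b, rfl⟩ := hS n hn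
    rw [mem_insert, mem_filter, mem_Ioc]
    rcases Nat.eq_zero_or_pos (a ^ 2 + b ^ 2) with h | h
    · exact Or.inl h
    · exact Or.inr ⟨⟨h, hX⟩, good_sq_add_sq hP a b⟩
  have h2 : S.card ≤ cnt P X + 1 := (card_le_card h1).trans (card_insert_le _ _)
  have h3 : (S.card : ℝ) ≤ cnt P X + 1 := by exact_mod_cast h2
  have h4 := (abs_le.1 (hA X)).2
  have h5 : dens P * X ≤ ε * X := mul_le_mul_of_nonneg_right hd (Nat.cast_nonneg _)
  linarith

end Pool.Agent.H336Z.TwoSq
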